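import Mathlib
import Pool.Agent.R311.DEH.A7

/-! The diagonal Moebius-twisted Elliott-Halberstam bound at every level `N ^ θ`, `θ < 1`, and
even at the levels `N exp (-(log N) ^ c)`, for all `N` outside one fixed very thin set. -/

set_option autoImplicit false

namespace Pool.Agent.Results.MP_e9eb55_nt.AlmostAllN
open Finset

/-- the first weight, `μ(m)` -/
noncomputable def g₁ (m : ℕ) : ℝ := ((ArithmeticFunction.moebius m : ℤ) : ℝ)

/-- the second weight, `μ(m) log m` -/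
noncomputable def g₂ (m : ℕ) : ℝ := ((ArithmeticFunction.moebius m : ℤ) : ℝ) * Real.log m

/-- the sum of `Λ(n) g(N - n)` over `1 ≤ n < N` with `n ≡ N (mod q)` -/
noncomputable def twistedSum (g : ℕ → ℝ) (q N : ℕ) : ℝ :=
  ∑ n ∈ (Finset.Ico 1 N).filter (fun n => n ≡ N [MOD q]),
    ArithmeticFunction.vonMangoldt n * g (N - n)

/-- the sum over the moduli `1 ≤ q ≤ Q` coprime to `N` of the absolute value of
`twistedSum g q N - (1 / φ(q)) * twistedSum g 1 N` -/
noncomputable def disc (g : ℕ → ℝ) (N : ℕ) (Q : ℝ) : ℝ :=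
  ∑ q ∈ (Finset.Icc 1 ⌊Q⌋₊).filter (fun q => q.Coprime N),
    |twistedSum g q N - 1 / (Nat.totient q : ℝ) * twistedSum g 1 N|

open Pool.Agent.R311.DEH in
/-- `N` is bad at stage `k` -/
def bad (k N : ℕ) : Prop :=
  ∃ g : ℕ → ℝ, (g = g1 ∨ g = g2) ∧ (N : ℝ) / Real.log N ^ k <
    D g N (N * Real.exp (-(Real.log N) ^ ((1 : ℝ) / (k + 1))))

lemma one_le_log {N : ℕ} (h : 8 ≤ N) : 2 ≤ Real.log N := by
  have h1 : Real.exp 2 ≤ 8 := by
    have h2 : Real.exp 2 = Real.exp 1 ^ 2 := by rw [← Real.exp_nat_mul]; norm_num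
    have h3 := Real.exp_one_lt_d9
    rw [h2]
    nlinarith [Real.exp_pos 1]
  rw [Real.le_log_iff_exp_le (by positivity)]
  have h4 : (8 : ℝ) ≤ N := by exact_mod_cast h
  linarith

open Pool.Agent.R311.DEH in
lemma bad_mono {j k N : ℕ} (hN : 8 ≤ N) (hjk : j ≤ k) (h : bad j N) : bad k N := by
  obtain ⟨g, hg, hlt⟩ := h
  refine ⟨g, hg, ?_⟩
  have hL := one_le_log hN
  have hN0 : (0 : ℝ) ≤ N := by positivity
  have hjk' : (j : ℝ) ≤ k := by exact_mod_cast hjk
  have h1 : (N : ℝ) / Real.log N ^ k ≤ N / Real.log N ^ j :=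
    div_le_div_of_nonneg_left hN0 (by positivity) (pow_le_pow_right₀ (by linarith) hjk)
  have h2 : (Real.log N) ^ ((1 : ℝ) / (k + 1)) ≤ (Real.log N) ^ ((1 : ℝ) / (j + 1)) := by
    apply Real.rpow_le_rpow_of_exponent_le (by linarith)
    apply one_div_le_one_div_of_le (by positivity)
    linarith
  have h3 : (N : ℝ) * Real.exp (-(Real.log N) ^ ((1 : ℝ) / (j + 1))) ≤
      N * Real.exp (-(Real.log N) ^ ((1 : ℝ) / (k + 1))) := by
    apply mul_le_mul_of_nonneg_left _ hN0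
    rw [Real.exp_le_exp]
    linarith
  exact lt_of_le_of_lt h1 (hlt.trans_le (D_mono g N h3))

open Pool.Agent.R311.DEH Classical in
lemma few_bad (k : ℕ) : ∃ X0 : ℕ, ∀ X : ℕ, X0 ≤ X →
    (((Finset.Icc 1 X).filter (fun N => bad k N)).card : ℝ) ≤ X / Real.log X ^ k := by
  have hk : (0 : ℝ) < 1 / ((k : ℝ) + 1) := by positivity
  have hk1 : (1 : ℝ) / ((k : ℝ) + 1) ≤ 1 := by
    rw [div_le_one (by positivity)]
    have : (0 : ℝ) ≤ k := by positivity
    linarith
  obtain ⟨X0, hX0⟩ := few_bad1 (1 / ((k : ℝ) + 1)) hk hk1 k (k + 1)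
  refine ⟨X0 + 8, fun X hX => ?_⟩
  have h1 := hX0 X (by omega) g1 (Or.inl rfl)
  have h2 := hX0 X (by omega) g2 (Or.inr rfl)
  have hL := one_le_log (show 8 ≤ X by omega)
  have hsub : (Finset.Icc 1 X).filter (fun N => bad k N) ⊆
      (Finset.Icc 1 X).filter (fun N : ℕ => (N : ℝ) / Real.log N ^ k <
        D g1 N (N * Real.exp (-(Real.log N) ^ ((1 : ℝ) / (k + 1))))) ∪
      (Finset.Icc 1 X).filter (fun N : ℕ => (N : ℝ) / Real.log N ^ k <
        D g2 N (N * Real.exp (-(Real.log N) ^ ((1 : ℝ) / (k + 1))))) := by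
    intro N hN
    rw [mem_filter] at hN
    rw [mem_union, mem_filter, mem_filter]
    obtain ⟨hN1, g, hg, hlt⟩ := hN
    rcases hg with rfl | rfl
    · exact Or.inl ⟨hN1, hlt⟩
    · exact Or.inr ⟨hN1, hlt⟩
  have h3 := (card_le_card hsub).trans (card_union_le _ _)
  have h4 : (((Finset.Icc 1 X).filter (fun N => bad k N)).card : ℝ) ≤
      X / Real.log X ^ (k + 1) + X / Real.log X ^ (k + 1) := by
    refine le_trans ?_ (add_le_add h1 h2)
    exact_mod_cast h3
  refine h4.trans ?_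
  have hX0' : (0 : ℝ) ≤ X := by positivity
  have h5 : (X : ℝ) / Real.log X ^ (k + 1) = X / Real.log X ^ k / Real.log X := by
    rw [pow_succ, div_div]
  have h6 : (X : ℝ) / Real.log X ^ k / Real.log X ≤ X / Real.log X ^ k / 2 :=
    div_le_div_of_nonneg_left (by positivity) (by norm_num) hL
  rw [h5]
  linarith

open Pool.Agent.R311.DEH Classical in
/-- **Diagonal Moebius-twisted Elliott-Halberstam for almost all `N`, at every level up to
`N exp (-(log N) ^ c)`.** -/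
theorem result : ∃ E : Set ℕ,
    (∀ B : ℝ, ∃ X₀ : ℕ, ∀ X : ℕ, X₀ ≤ X →
      (((Finset.Icc 1 X).filter (fun N => N ∈ E)).card : ℝ) ≤ X / Real.log X ^ B) ∧
    (∀ θ : ℝ, 0 < θ → θ < 1 → ∀ A : ℝ, 0 < A → ∃ N₀ : ℕ, ∀ N : ℕ, N₀ ≤ N → N ∉ E →
      ∀ g : ℕ → ℝ, (g = g₁ ∨ g = g₂) →
        disc g N ((N : ℝ) ^ θ) ≤ N * Real.log N ^ (-A)) ∧
    (∀ c : ℝ, 0 < c → ∀ A : ℝ, 0 < A → ∃ N₀ : ℕ, ∀ N : ℕ, N₀ ≤ N → N ∉ E →
      ∀ g : ℕ → ℝ, (g = g₁ ∨ g = g₂) →
        disc g N (N * Real.exp (-(Real.log N) ^ c)) ≤ N * Real.log N ^ (-A)) := by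
  choose X0 hX0 using few_bad
  set Y : ℕ → ℕ := fun k => ∑ j ∈ Finset.range (k + 1), X0 j + k + 8 with hY
  have hY8 : ∀ k, 8 ≤ Y k := fun k => by simp only [hY]; omega
  have hYk : ∀ k, k ≤ Y k := fun k => by simp only [hY]; omega
  have hYX : ∀ k, X0 k ≤ Y k := fun k => by
    simp only [hY]
    have := Finset.single_le_sum (f := X0) (s := Finset.range (k + 1)) (fun _ _ => Nat.zero_le _)
      (Finset.mem_range.2 (Nat.lt_succ_self k))
    omega
  have hYmono : ∀ j k, j ≤ k → Y j ≤ Y k := fun j k hjk => by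
    simp only [hY]
    have := Finset.sum_le_sum_of_subset (f := X0)
      (Finset.range_subset_range.2 (Nat.succ_le_succ hjk))
    simp only [Nat.succ_eq_add_one] at this
    omega
  have key : ∀ c : ℝ, 0 < c → ∀ A : ℝ, 0 < A → ∃ N₀ : ℕ, ∀ N : ℕ, N₀ ≤ N →
      N ∉ {N : ℕ | ∃ k, Y k ≤ N ∧ bad k N} → ∀ g : ℕ → ℝ, (g = g₁ ∨ g = g₂) →
        disc g N (N * Real.exp (-(Real.log N) ^ c)) ≤ N * Real.log N ^ (-A) := by
    intro c hc A hA
    obtain ⟨k, hk⟩ := exists_nat_ge (A + 1 / c)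
    refine ⟨Y k, fun N hN hNE g hg => ?_⟩
    have hg' : g = g1 ∨ g = g2 := hg
    have hN8 : 8 ≤ N := (hY8 k).trans hN
    have hL := one_le_log hN8
    have hc' : (1 : ℝ) / ((k : ℝ) + 1) ≤ c := by
      rw [div_le_iff₀ (by positivity)]
      have : 1 / c ≤ k + 1 := by linarith
      rw [div_le_iff₀ hc] at this
      linarith
    have hAk : A ≤ k := by
      have : 0 < 1 / c := by positivity
      linarith
    have h1 : ¬ bad k N := fun h => hNE ⟨k, hN, h⟩
    have h2 : D g N (N * Real.exp (-(Real.log N) ^ ((1 : ℝ) / (k + 1)))) ≤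
        (N : ℝ) / Real.log N ^ k := by
      by_contra hcon
      exact h1 ⟨g, hg', not_le.1 hcon⟩
    have h3 : (N : ℝ) * Real.exp (-(Real.log N) ^ c) ≤
        N * Real.exp (-(Real.log N) ^ ((1 : ℝ) / (k + 1))) := by
      apply mul_le_mul_of_nonneg_left _ (by positivity)
      rw [Real.exp_le_exp]
      have := Real.rpow_le_rpow_of_exponent_le (show 1 ≤ Real.log N by linarith) hc'
      linarith
    have h4 : disc g N (N * Real.exp (-(Real.log N) ^ c)) ≤
        D g N (N * Real.exp (-(Real.log N) ^ ((1 : ℝ) / (k + 1)))) := D_mono g N h3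
    refine h4.trans (h2.trans ?_)
    rw [div_eq_mul_inv, ← Real.rpow_natCast, ← Real.rpow_neg (by linarith)]
    apply mul_le_mul_of_nonneg_left _ (by positivity)
    exact Real.rpow_le_rpow_of_exponent_le (by linarith) (by linarith)
  refine ⟨{N : ℕ | ∃ k, Y k ≤ N ∧ bad k N}, ?_, ?_, key⟩
  · intro B
    obtain ⟨b, hb⟩ := exists_nat_ge B
    refine ⟨Y b, fun X hX => ?_⟩
    set k := Nat.findGreatest (fun j => Y j ≤ X) X with hk
    have hbk : b ≤ k := Nat.le_findGreatest ((hYk b).trans hX) hX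
    have hkX : Y k ≤ X := Nat.findGreatest_spec (P := fun j => Y j ≤ X) ((hYk b).trans hX) hX
    have hmax : ∀ j, Y j ≤ X → j ≤ k := fun j hj => Nat.le_findGreatest ((hYk j).trans hj) hj
    have hL := one_le_log ((hY8 b).trans hX)
    have hsub : (Finset.Icc 1 X).filter (fun N => N ∈ {N : ℕ | ∃ k, Y k ≤ N ∧ bad k N}) ⊆
        (Finset.Icc 1 X).filter (fun N => bad k N) := by
      intro N hN
      rw [mem_filter] at hN ⊢
      obtain ⟨hN1, j, hjN, hj⟩ := hN
      exact ⟨hN1, bad_mono ((hY8 j).trans hjN) (hmax j (hjN.trans (mem_Icc.1 hN1).2)) hj⟩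
    have h1 : (((Finset.Icc 1 X).filter (fun N => N ∈ {N : ℕ | ∃ k, Y k ≤ N ∧ bad k N})).card : ℝ) ≤
        X / Real.log X ^ k := by
      refine le_trans ?_ (hX0 k X ((hYX k).trans hkX))
      exact_mod_cast card_le_card hsub
    refine h1.trans ?_
    rw [← Real.rpow_natCast]
    apply div_le_div_of_nonneg_left (by positivity) (by positivity)
    apply Real.rpow_le_rpow_of_exponent_le (by linarith)
    have : (b : ℝ) ≤ k := by exact_mod_cast hbk
    linarith
  · intro θ hθ hθ1 A hA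
    obtain ⟨N₀, hN₀⟩ := key (1 / 2) (by norm_num) A hA
    obtain ⟨M, hM⟩ := exists_nat_ge (Real.exp ((1 / (1 - θ)) ^ 2))
    refine ⟨N₀ + M + 8, fun N hN hNE g hg => ?_⟩
    have h1 := hN₀ N (by omega) hNE g hg
    refine le_trans ?_ h1
    have hN0 : (0 : ℝ) < N := by
      have : 0 < N := by omega
      exact_mod_cast this
    have hL : (1 / (1 - θ)) ^ 2 ≤ Real.log N := by
      rw [Real.le_log_iff_exp_le hN0]
      have : (M : ℝ) ≤ N := by exact_mod_cast (by omega : M ≤ N)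
      linarith
    have hθ' : 0 < 1 - θ := by linarith
    apply D_mono g N
    have h2 : (N : ℝ) ^ θ = N * Real.exp (-((1 - θ) * Real.log N)) := by
      rw [Real.rpow_def_of_pos hN0]
      nth_rewrite 2 [← Real.exp_log hN0]
      rw [← Real.exp_add]
      congr 1
      ring
    rw [h2]
    apply mul_le_mul_of_nonneg_left _ hN0.le
    rw [Real.exp_le_exp, ← Real.sqrt_eq_rpow]
    have h3 : 1 / (1 - θ) ≤ Real.sqrt (Real.log N) := Real.le_sqrt_of_sq_le hL
    have h4 : 0 ≤ Real.log N := le_trans (by positivity) hL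
    have h5 : Real.sqrt (Real.log N) * Real.sqrt (Real.log N) = Real.log N := Real.mul_self_sqrt h4
    have h6 : 1 ≤ (1 - θ) * Real.sqrt (Real.log N) := by
      rw [div_le_iff₀ hθ'] at h3
      linarith
    have h7 : Real.sqrt (Real.log N) ≤ (1 - θ) * Real.log N := by
      calc Real.sqrt (Real.log N) = 1 * Real.sqrt (Real.log N) := (one_mul _).symm
        _ ≤ ((1 - θ) * Real.sqrt (Real.log N)) * Real.sqrt (Real.log N) :=
            mul_le_mul_of_nonneg_right h6 (Real.sqrt_nonneg _)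
        _ = (1 - θ) * (Real.sqrt (Real.log N) * Real.sqrt (Real.log N)) := by ring
        _ = _ := by rw [h5]
    linarith

end Pool.Agent.Results.MP_e9eb55_nt.AlmostAllN
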