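import Pool.Agent.Results.MP_e9eb55_nt.AlmostAllN
import Pool.Agent.R482.ST.Dens

/-!
# The diagonal Möbius-twisted Elliott-Halberstam bound for ALL `N` near the powers of almost every number

Let `v_n ≥ 1` be such that the sum of `v_n ^ (-t)` converges for some `t > 0` (for instance `v_n = n`, `v_n = n ^ s`, `s > 0`,
or `v_n = 3 ^ n`). For almost every `α > 1`, every `θ < 1` and all `A`, `B`, for all but finitely many `n` the bound
`D_g(N; θ) ≤ N (log N) ^ (-B)` holds for both weights and ALL natural numbers `N` with `|N - α ^ (v_n)| ≤ (v_n) ^ A`, so for all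
`N` in a window of length an arbitrary power of `log N` around `α ^ (v_n)`; and so for all moduli up to `N exp (-(log N) ^ c)`,
`c > 0`. So in sets of the form `{⌊α ^ n⌋}`, `{⌈α ^ n⌉ + k : |k| ≤ n ^ A}` there are no exceptions at all, for almost every
`α`, although they are very thin.
-/

set_option autoImplicit false

namespace Pool.Agent.Results.MP_e9eb55_nt.NearPowers

open MeasureTheory Filter Topology
open AlmostAllN (g₁ g₂ disc)

/-- **Theorem.** Let `v_n ≥ 1` be reals such that the sum of `v_n ^ (-t)` converges for some `t > 0`. There is a null set `Z` such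
that for all `α > 1` outside `Z`, all `A` and all `B > 0`: (1) for each `0 < θ < 1`, for all but finitely many `n`, for ALL
natural numbers `N` with `|N - α ^ (v_n)| ≤ (v_n) ^ A` and both weights `g`: `D_g(N; θ) ≤ N (log N) ^ (-B)`; (2) the same for the
moduli up to `N exp (-(log N) ^ c)`, for each `c > 0`. -/
theorem result (v : ℕ → ℝ) (hv : ∀ n, 1 ≤ v n) (t : ℝ) (ht : 0 < t) (hvt : Summable fun n => (v n) ^ (-t)) :
    ∃ Z : Set ℝ, volume Z = 0 ∧ ∀ α : ℝ, 1 < α → α ∉ Z → ∀ A B : ℝ, 0 < B →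
      (∀ θ : ℝ, 0 < θ → θ < 1 → ∃ n₀ : ℕ, ∀ n : ℕ, n₀ ≤ n → ∀ N : ℕ, |(N : ℝ) - α ^ (v n)| ≤ (v n) ^ A →
        ∀ g : ℕ → ℝ, (g = g₁ ∨ g = g₂) → disc g N ((N : ℝ) ^ θ) ≤ N * Real.log N ^ (-B)) ∧
      (∀ c : ℝ, 0 < c → ∃ n₀ : ℕ, ∀ n : ℕ, n₀ ≤ n → ∀ N : ℕ, |(N : ℝ) - α ^ (v n)| ≤ (v n) ^ A →
        ∀ g : ℕ → ℝ, (g = g₁ ∨ g = g₂) →
          disc g N (N * Real.exp (-(Real.log N) ^ c)) ≤ N * Real.log N ^ (-B)) := by
  obtain ⟨E, h1, h2, h3⟩ := AlmostAllN.result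
  obtain ⟨Z, hZ, hw⟩ := Pool.Agent.R482.ST.pow_log_windows E (fun N : ℕ => (N : ℝ)) hv hvt ht
    (fun b hb => Pool.Agent.R482.ST.log_count E b hb (h1 b))
  have hvinf : Tendsto v atTop atTop := by
    rw [tendsto_atTop]
    intro M
    exact Pool.Agent.R482.ST.large (fun n => by linarith [hv n]) ht hvt M
  -- the numbers in the windows are large
  have hlarge : ∀ α : ℝ, 1 < α → ∀ A : ℝ, ∀ N₀ : ℕ, ∃ n₁ : ℕ, ∀ n : ℕ, n₁ ≤ n → ∀ N : ℕ,
      |(N : ℝ) - α ^ (v n)| ≤ (v n) ^ A → N₀ ≤ N := by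
    intro α hα A N₀
    have hx0 : 0 < Real.log α := Real.log_pos hα
    have e1 : Tendsto (fun y : ℝ => Real.exp (Real.log α * y) / y ^ A) atTop atTop :=
      tendsto_exp_mul_div_rpow_atTop A (Real.log α) hx0
    have e2 := (e1.comp hvinf).eventually (eventually_ge_atTop 2)
    have e3 : Tendsto (fun n => Real.exp (Real.log α * v n)) atTop atTop :=
      Real.tendsto_exp_atTop.comp (hvinf.const_mul_atTop hx0)
    have e4 := e3.eventually (eventually_ge_atTop (2 * (N₀ : ℝ)))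
    obtain ⟨n₁, hn₁⟩ := eventually_atTop.1 (e2.and e4)
    refine ⟨n₁, fun n hn N hN => ?_⟩
    obtain ⟨q1, q2⟩ := hn₁ n hn
    have hvn : 0 < v n := by linarith [hv n]
    have q1 : 2 ≤ Real.exp (Real.log α * v n) / (v n) ^ A := q1
    rw [le_div_iff₀ (by positivity)] at q1
    rw [Real.rpow_def_of_pos (by linarith)] at hN
    have q3 := (abs_le.1 hN).1
    have q4 : (N₀ : ℝ) ≤ N := by linarith
    exact_mod_cast q4
  refine ⟨Z, hZ, fun α hα hαZ A B hB => ⟨fun θ hθ hθ1 => ?_, fun c hc => ?_⟩⟩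
  · obtain ⟨N₀, hN₀⟩ := h2 θ hθ hθ1 B hB
    obtain ⟨n₁, hn₁⟩ := hlarge α hα A N₀
    obtain ⟨n₂, hn₂⟩ := hw α hα hαZ A
    refine ⟨max n₁ n₂, fun n hn N hN g hg => hN₀ N (hn₁ n ((le_max_left _ _).trans hn) N hN) (fun hE => ?_) g hg⟩
    exact absurd (hn₂ n ((le_max_right _ _).trans hn) N hE) (not_lt.2 hN)
  · obtain ⟨N₀, hN₀⟩ := h3 c hc B hB
    obtain ⟨n₁, hn₁⟩ := hlarge α hα A N₀
    obtain ⟨n₂, hn₂⟩ := hw α hα hαZ A
    refine ⟨max n₁ n₂, fun n hn N hN g hg => hN₀ N (hn₁ n ((le_max_left _ _).trans hn) N hN) (fun hE => ?_) g hg⟩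
    exact absurd (hn₂ n ((le_max_right _ _).trans hn) N hE) (not_lt.2 hN)

end Pool.Agent.Results.MP_e9eb55_nt.NearPowers
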