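import Pool.Agent.R177.RF.Deh
import Pool.Agent.R177.RF.Fam
/-!
# The diagonal Moebius-twisted Elliott-Halberstam conjecture in the random model of the Moebius function

Let `ξ p` be independent fair random signs and let `f` be the random multiplicative function
supported on the squarefree integers with `f(p) = ξ p` (the model of Wintner for `μ`).  The primes are
the actual primes: `Λ` is the von Mangoldt function.  Almost surely, for every `ε > 0` and every `N ≥ N₀(ε)`,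

* `|∑_{n < N, n ≡ N (q)} Λ(n) f(N - n)| ≤ (N / q)^(1/2) N^ε` for every modulus `q ≥ 1`, and the same with
  `f(m) log m` in place of `f(m)`;
* `D_g(N; θ) ≤ N^((1 + θ)/2 + ε)` for all real `θ`, for `g(m) = f(m)` and for `g(m) = f(m) log m`;

hence dEH(`N^θ`) holds with `f` in place of `μ` for every `θ < 1` and every large `N`.
In particular there are multiplicative functions `f : ℕ → {-1,0,1}` with `f² = μ²` for which all this holds.

The proof: the `2k`-th moment of the sum over `m = N - n = q l` only involves the `2k`-tuples `(l_1, ..., l_{2k})`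
whose product is a square, whatever `N` and `q` are.
-/
open MeasureTheory ProbabilityTheory Filter Topology

namespace Pool.Agent.Results.MP_e9eb55_nt.RandomModelOfMoebius

/-- the multiplicative function supported on squarefree integers with value `ξ p ω` at `p` -/
noncomputable def randomMoebius {Ω : Type} (ξ : ℕ → Ω → ℝ) (ω : Ω) (n : ℕ) : ℝ :=
  if Squarefree n then ∏ p ∈ n.primeFactors, ξ p ω else 0

/-- `∑ Λ(n) g(N - n)` over `1 ≤ n < N`, `n ≡ N` modulo `q` -/
noncomputable def diagonalSum (g : ℕ → ℝ) (N q : ℕ) : ℝ :=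
  ∑ n ∈ (Finset.range N).filter (fun n => 1 ≤ n ∧ n ≡ N [MOD q]), ArithmeticFunction.vonMangoldt n * g (N - n)

/-- the quantity `D_g(N; θ)` of the problem -/
noncomputable def D (g : ℕ → ℝ) (N : ℕ) (θ : ℝ) : ℝ :=
  ∑ q ∈ (Finset.Icc 1 ⌊(N : ℝ) ^ θ⌋₊).filter (fun q => q.Coprime N),
    |diagonalSum g N q - 1 / (Nat.totient q : ℝ) *
      ∑ n ∈ (Finset.range N).filter (fun n => 1 ≤ n), ArithmeticFunction.vonMangoldt n * g (N - n)|

/-- `dEH(N^θ)` with `f` in place of the Moebius function -/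
def DiagonalEH (f : ℕ → ℝ) (θ : ℝ) : Prop :=
  ∀ A : ℝ, 0 < A → ∃ C : ℝ, ∀ᶠ N : ℕ in atTop,
    D f N θ ≤ C * (N * (Real.log N) ^ (-A)) ∧
    D (fun m => f m * Real.log m) N θ ≤ C * (N * (Real.log N) ^ (-A))

/-- square root cancellation to every modulus, and the resulting bound of `D`, for `f(m)` and `f(m) log m` -/
def PowerSaving (f : ℕ → ℝ) : Prop :=
  ∀ ε : ℝ, 0 < ε → ∀ᶠ N : ℕ in atTop,
    (∀ q : ℕ, 1 ≤ q → |diagonalSum f N q| ≤ ((N : ℝ) / q) ^ (1 / 2 : ℝ) * (N : ℝ) ^ ε ∧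
      |diagonalSum (fun m => f m * Real.log m) N q| ≤ ((N : ℝ) / q) ^ (1 / 2 : ℝ) * (N : ℝ) ^ ε) ∧
    (∀ θ : ℝ, D f N θ ≤ (N : ℝ) ^ ((1 + θ) / 2 + ε) ∧
      D (fun m => f m * Real.log m) N θ ≤ (N : ℝ) ^ ((1 + θ) / 2 + ε))

lemma power_imp {f : ℕ → ℝ} (h : PowerSaving f) {θ : ℝ} (hθ : θ < 1) : DiagonalEH f θ := by
  intro A hA
  refine ⟨1, ?_⟩
  have hε : 0 < (1 - θ) / 4 := by linarith
  have h1 : ∀ᶠ N : ℕ in atTop, (Real.log N) ^ A ≤ (N : ℝ) ^ ((1 - θ) / 4) := by
    have h2 := (isLittleO_log_rpow_rpow_atTop A hε).bound one_pos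
    have h3 := (tendsto_natCast_atTop_atTop (R := ℝ)).eventually h2
    filter_upwards [h3, eventually_ge_atTop 1] with N h4 h5
    have hN1 : (1 : ℝ) ≤ N := by exact_mod_cast h5
    rw [Real.norm_eq_abs, Real.norm_eq_abs, one_mul, abs_of_nonneg (Real.rpow_nonneg (Real.log_nonneg hN1) _),
      abs_of_nonneg (by positivity)] at h4
    exact h4
  filter_upwards [h ((1 - θ) / 4) hε, h1, eventually_ge_atTop 3] with N h2 h3 h4
  have hN3 : (3 : ℝ) ≤ N := by exact_mod_cast h4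
  have hN0 : (0 : ℝ) < N := by linarith
  have hlog : 0 < Real.log N := Real.log_pos (by linarith)
  have h5 : (N : ℝ) ^ ((1 + θ) / 2 + (1 - θ) / 4) ≤ 1 * (N * (Real.log N) ^ (-A)) := by
    rw [one_mul, Real.rpow_neg hlog.le, ← div_eq_mul_inv, le_div_iff₀ (Real.rpow_pos_of_pos hlog _)]
    calc (N : ℝ) ^ ((1 + θ) / 2 + (1 - θ) / 4) * (Real.log N) ^ A ≤
        (N : ℝ) ^ ((1 + θ) / 2 + (1 - θ) / 4) * (N : ℝ) ^ ((1 - θ) / 4) := mul_le_mul_of_nonneg_left h3 (by positivity)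
      _ = (N : ℝ) ^ (1 : ℝ) := by
        rw [← Real.rpow_add hN0]
        congr 1
        ring
      _ = N := Real.rpow_one _
  exact ⟨(h2.2 θ).1.trans h5, (h2.2 θ).2.trans h5⟩

lemma almost_surely {Ω : Type} [MeasurableSpace Ω] (P : Measure Ω) [IsProbabilityMeasure P]
    (ξ : ℕ → Ω → ℝ) (hmeas : ∀ p, Measurable (ξ p)) (hsign : ∀ p ω, ξ p ω = 1 ∨ ξ p ω = -1)
    (hmean : ∀ p, ∫ ω, ξ p ω ∂P = 0) (hind : iIndepFun ξ P) :
    ∀ᵐ ω ∂P, PowerSaving (randomMoebius ξ ω) := by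
  have h1 := Pool.Agent.R177.RF.deh hmeas hsign hmean hind (fun _ => 1) (by
    intro m hm
    have : 0 ≤ Real.log m := Real.log_nonneg (by exact_mod_cast hm)
    rw [abs_one]
    linarith)
  have h2 := Pool.Agent.R177.RF.deh hmeas hsign hmean hind (fun m => Real.log m) (by
    intro m hm
    have : 0 ≤ Real.log m := Real.log_nonneg (by exact_mod_cast hm)
    rw [abs_of_nonneg this]
    linarith)
  filter_upwards [h1, h2] with ω hω1 hω2 ε hε
  filter_upwards [hω1 ε hε, hω2 ε hε] with N k1 k2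
  have e1 : (fun m => Pool.Agent.R177.RF.rf ξ m ω * (1 : ℝ)) = randomMoebius ξ ω := by
    funext m
    rw [mul_one]
    rfl
  rw [e1] at k1
  exact ⟨fun q hq => ⟨k1.1 q hq, k2.1 q hq⟩, fun θ => ⟨k1.2 θ, k2.2 θ⟩⟩

/-- **dEH(`N^θ`) holds almost surely for the random model of the Moebius function, for every `θ < 1`**, with
square root cancellation to every modulus. -/
theorem result :
    (∀ (Ω : Type) [MeasurableSpace Ω] (P : Measure Ω) [IsProbabilityMeasure P] (ξ : ℕ → Ω → ℝ),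
      (∀ p, Measurable (ξ p)) → (∀ p ω, ξ p ω = 1 ∨ ξ p ω = -1) → (∀ p, ∫ ω, ξ p ω ∂P = 0) → iIndepFun ξ P →
      ∀ᵐ ω ∂P, PowerSaving (randomMoebius ξ ω) ∧ ∀ θ : ℝ, 0 < θ → θ < 1 → DiagonalEH (randomMoebius ξ ω) θ) ∧
    (∃ f : ℕ → ℝ, f 1 = 1 ∧ (∀ m n : ℕ, m.Coprime n → f (m * n) = f m * f n) ∧
      (∀ n : ℕ, f n ^ 2 = ((ArithmeticFunction.moebius n : ℤ) : ℝ) ^ 2) ∧
      PowerSaving f ∧ ∀ θ : ℝ, 0 < θ → θ < 1 → DiagonalEH f θ) := by
  constructor
  · intro Ω _ P _ ξ h1 h2 h3 h4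
    filter_upwards [almost_surely P ξ h1 h2 h3 h4] with ω hω
    exact ⟨hω, fun θ _ hθ => power_imp hω hθ⟩
  · obtain ⟨Ω, _, P, _, ξ, h1, h2, h3, h4⟩ := Pool.Agent.R177.RF.exists_family
    obtain ⟨ω, hω⟩ := (almost_surely P ξ h1 h2 h3 h4).exists
    refine ⟨randomMoebius ξ ω, ?_, ?_, ?_, hω, fun θ _ hθ => power_imp hω hθ⟩
    · unfold randomMoebius
      simp
    · intro m n hmn
      unfold randomMoebius
      by_cases hm : Squarefree m
      · by_cases hn : Squarefree n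
        · rw [if_pos ((Nat.squarefree_mul hmn).2 ⟨hm, hn⟩), if_pos hm, if_pos hn, hmn.primeFactors_mul,
            Finset.prod_union hmn.disjoint_primeFactors]
        · rw [if_neg (fun h => hn ((Nat.squarefree_mul hmn).1 h).2), if_neg hn, mul_zero]
      · rw [if_neg (fun h => hm ((Nat.squarefree_mul hmn).1 h).1), if_neg hm, zero_mul]
    · intro n
      unfold randomMoebius
      by_cases hn : Squarefree n
      · rw [if_pos hn, Pool.Agent.R177.RF.prod_sq h2]
        have h5 : (ArithmeticFunction.moebius n : ℤ) ^ 2 = 1 := ArithmeticFunction.moebius_sq_eq_one_of_squarefree hn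
        exact_mod_cast h5.symm
      · rw [if_neg hn, ArithmeticFunction.moebius_eq_zero_of_not_squarefree hn]
        simp

end Pool.Agent.Results.MP_e9eb55_nt.RandomModelOfMoebius
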