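import Pool.Agent.Results.MP_e9eb55_nt.AlmostAllN
import Pool.Agent.R482.ST.Dens
import Pool.Agent.R770.LG.Sum

/-!
# The diagonal Möbius-twisted Elliott-Halberstam bound for all members of thin random sets and near typical points

Random sets: let `W_N` be events of probability at most `C (1 + log N) ^ c / N`. Almost surely the bound
`D_g(N; θ) ≤ N (log N) ^ (-B)`, for both weights and all `θ < 1` and `B`, holds for ALL but finitely many of the `N` for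
which `W_N` occurs. No independence is needed. Typical points: if `φ` is any map from the natural numbers to a metric
space with a measure for which balls of radius `r` have measure at most `C₀ r ^ m`, then for almost every point `ξ` the
bound holds for ALL but finitely many of the `N` with `dist (φ N) ξ ≤ (1 + log N) ^ A N ^ (-1 / m)`.
-/

set_option autoImplicit false

namespace Pool.Agent.Results.MP_e9eb55_nt.TypicalPoints

open MeasureTheory Filter Topology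
open AlmostAllN (g₁ g₂ disc)

/-- The bounds hold for all but finitely many members of `T`: at all levels `N ^ θ`, `θ < 1`, and at the levels
`N exp (-(log N) ^ c)`, `c > 0`, for both weights and all powers of the logarithm. -/
def HoldsOn (T : Set ℕ) : Prop :=
  (∀ θ : ℝ, 0 < θ → θ < 1 → ∀ B : ℝ, 0 < B → {N | N ∈ T ∧ ¬ ∀ g : ℕ → ℝ, (g = g₁ ∨ g = g₂) →
    disc g N ((N : ℝ) ^ θ) ≤ N * Real.log N ^ (-B)}.Finite) ∧
  (∀ c : ℝ, 0 < c → ∀ B : ℝ, 0 < B → {N | N ∈ T ∧ ¬ ∀ g : ℕ → ℝ, (g = g₁ ∨ g = g₂) →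
    disc g N (N * Real.exp (-(Real.log N) ^ c)) ≤ N * Real.log N ^ (-B)}.Finite)

lemma holdsOn_of {E : Set ℕ}
    (h2 : ∀ θ : ℝ, 0 < θ → θ < 1 → ∀ A : ℝ, 0 < A → ∃ N₀ : ℕ, ∀ N : ℕ, N₀ ≤ N → N ∉ E →
      ∀ g : ℕ → ℝ, (g = g₁ ∨ g = g₂) → disc g N ((N : ℝ) ^ θ) ≤ N * Real.log N ^ (-A))
    (h3 : ∀ c : ℝ, 0 < c → ∀ A : ℝ, 0 < A → ∃ N₀ : ℕ, ∀ N : ℕ, N₀ ≤ N → N ∉ E →
      ∀ g : ℕ → ℝ, (g = g₁ ∨ g = g₂) → disc g N (N * Real.exp (-(Real.log N) ^ c)) ≤ N * Real.log N ^ (-A))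
    {T : Set ℕ} (hT : {N | N ∈ E ∧ N ∈ T}.Finite) : HoldsOn T := by
  have key : ∀ P : ℕ → Prop, (∃ N₀ : ℕ, ∀ N : ℕ, N₀ ≤ N → N ∉ E → P N) → {N | N ∈ T ∧ ¬ P N}.Finite := by
    rintro P ⟨N₀, hN⟩
    refine (hT.union (Set.finite_Iio N₀)).subset ?_
    rintro N ⟨h4, h5⟩
    by_cases h6 : N ∈ E
    · exact Or.inl ⟨h6, h4⟩
    · right
      by_contra hcon
      exact h5 (hN N (not_lt.1 hcon) h6)
  exact ⟨fun θ h0 h1 B hB => key _ (h2 θ h0 h1 B hB), fun c hc B hB => key _ (h3 c hc B hB)⟩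

/-- **Theorem.** (1) Let `W_N` be sets in a measure space with `μ (W_N) ≤ C (1 + log N) ^ c / N` for all `N ≥ 1`. For
almost every `ω` the bounds hold for all but finitely many of the `N` with `ω ∈ W_N`. (2) Let `X` be a metric space and
`μ` a measure on `X` for which each closed ball of radius `r` has measure at most `C₀ r ^ m`, `m > 0`, and let
`φ : ℕ → X` be any map. For almost every `ξ` and every `A` the bounds hold for all but finitely many of the `N` with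
`dist (φ N) ξ ≤ (1 + log N) ^ A N ^ (-1 / m)`. -/
theorem result :
    (∀ (Ω : Type) [MeasurableSpace Ω] (μ : Measure Ω) (W : ℕ → Set Ω) (C c : ℝ),
      (∀ N : ℕ, 1 ≤ N → μ (W N) ≤ ENNReal.ofReal (C * ((1 + Real.log N) ^ c / N))) →
      ∀ᵐ ω ∂μ, HoldsOn {N | ω ∈ W N}) ∧
    (∀ (X : Type) [MetricSpace X] [MeasurableSpace X] (μ : Measure X) (C₀ m : ℝ), 0 < m →
      (∀ (x : X) (r : ℝ), 0 < r → μ (Metric.closedBall x r) ≤ ENNReal.ofReal (C₀ * r ^ m)) →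
      ∀ φ : ℕ → X, ∀ᵐ ξ ∂μ, ∀ A : ℝ,
        HoldsOn {N | dist (φ N) ξ ≤ (1 + Real.log N) ^ A * (N : ℝ) ^ (-(1 / m))}) := by
  obtain ⟨E, h1, h2, h3⟩ := AlmostAllN.result
  have hS : ∀ b : ℝ, 0 < b → ∃ C : ℝ, ∀ X : ℝ, 1 ≤ X → {t : ℕ | t ∈ E ∧ (t : ℝ) ≤ X}.Finite ∧
      ({t : ℕ | t ∈ E ∧ (t : ℝ) ≤ X}.ncard : ℝ) ≤ C * X * (1 + Real.log X) ^ (-b) := fun b hb =>
    Pool.Agent.R482.ST.log_count E b hb (h1 b)
  refine ⟨fun Ω _ μ W C c hW => ?_, fun X _ _ μ C₀ m hm hμ φ => ?_⟩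
  · filter_upwards [Pool.Agent.R770.LG.ae_finite E hS μ W C c hW] with ω hω
    exact holdsOn_of h2 h3 hω
  · filter_upwards [Pool.Agent.R770.LG.ae_near E hS μ hm hμ φ] with ξ hξ A
    exact holdsOn_of h2 h3 (hξ A)

end Pool.Agent.Results.MP_e9eb55_nt.TypicalPoints
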